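import Pool.Agent.H40CS.Even

namespace Pool.Agent.Results.MP_28ad2c_co.NearLowerEnd

open Finset Filter Pool.Agent.H40CS

/-- `sidonNumber n` is the largest size of a Sidon set in the cyclic group of order `n`
(for `n > 0`); Sidon sets are `Pool.Agent.H40CS.IsSidonSet`. -/
noncomputable def sidonNumber (n : ℕ) : ℕ :=
  sSup {k : ℕ | ∃ A : Finset (ZMod n), IsSidonSet A ∧ A.card = k}

/-- The upper bound `M(n) = ⌊(√(4 n - 3) + 1) / 2⌋` for `sidonNumber n`. -/
noncomputable def maxBound (n : ℕ) : ℕ := ⌊(Real.sqrt (4 * (n : ℝ) - 3) + 1) / 2⌋₊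

theorem maxBound_eq {m n : ℕ} (hm : 1 ≤ m) (h1 : m * m + 1 ≤ n + m) (h2 : n ≤ m * m + m) :
    maxBound n = m := by
  unfold maxBound
  have hm1 : (1 : ℝ) ≤ m := by exact_mod_cast hm
  have h1' : (m : ℝ) * m + 1 ≤ n + m := by exact_mod_cast h1
  have h2' : (n : ℝ) ≤ m * m + m := by exact_mod_cast h2
  rw [Nat.floor_eq_iff (by positivity)]
  constructor
  · have : 2 * (m : ℝ) - 1 ≤ Real.sqrt (4 * (n : ℝ) - 3) := by
      apply Real.le_sqrt_of_sq_le
      nlinarith
    linarith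
  · have : Real.sqrt (4 * (n : ℝ) - 3) < 2 * m + 1 := by
      rw [Real.sqrt_lt' (by positivity)]
      nlinarith
    linarith

theorem exists_of_sidonNumber {n : ℕ} [NeZero n] {k : ℕ} (h : sidonNumber n = k) :
    ∃ A : Finset (ZMod n), IsSidonSet A ∧ A.card = k := by
  have hne : {k : ℕ | ∃ A : Finset (ZMod n), IsSidonSet A ∧ A.card = k}.Nonempty := by
    refine ⟨0, ∅, ?_, card_empty⟩
    intro a ha
    exact absurd ha (notMem_empty a)
  have hbd : BddAbove {k : ℕ | ∃ A : Finset (ZMod n), IsSidonSet A ∧ A.card = k} := by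
    refine ⟨n, ?_⟩
    rintro k ⟨A, _, hA⟩
    rw [← hA]
    refine (card_le_univ A).trans ?_
    rw [ZMod.card]
  have h1 := Nat.sSup_mem hne hbd
  unfold sidonNumber at h
  rw [h] at h1
  exact h1

theorem card_missing_eq {δ m : ℕ} {A : Finset (ZMod (modN δ m))} (hA : IsSidonSet A)
    (hAm : A.card = m) : (missing A).card = δ := by
  have h1 := card_missing hA
  have h2 : modN δ m = m * m - m + δ + 1 := rfl
  rw [hAm] at h1
  have h3 := h2.symm.trans h1
  omega

/-- **Almost all orders near the lower end fail.** Let `B` be a constant and `g(m) = o(√m)`.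
For almost all `m` (in the sense of natural density) no `n` with
`m ^ 2 - m + 1 ≤ n ≤ m ^ 2 - m + 1 + B`, and no even `n` with
`m ^ 2 - m + 1 ≤ n ≤ m ^ 2 - m + 1 + g m`, satisfies `σ(ℤ_n, 2) = M(n)`. -/
theorem result (B : ℕ) (g : ℕ → ℝ) (hg : g =o[atTop] (fun m : ℕ => Real.sqrt m)) :
    Tendsto (fun X : ℕ => ({m : ℕ | m < X ∧ ∃ n : ℕ, m * m + 1 ≤ n + m ∧
      sidonNumber n = maxBound n ∧ (n + m ≤ m * m + 1 + B ∨
        (Even n ∧ (n : ℝ) ≤ (m : ℝ) ^ 2 - m + 1 + g m))}.ncard : ℝ) / X) atTop (nhds 0) := by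
  apply tendsto_of_DZ
  have hb := hg.bound one_pos
  rw [eventually_atTop] at hb
  obtain ⟨M₀, hM₀⟩ := hb
  have hD1 : DZ (fun m => ∃ δ ∈ range (B + 1), Good δ m) :=
    DZ.exists_finset (range (B + 1)) (fun δ m => Good δ m) fun δ _ => DZ_Good δ
  have hD2 := DZ_near_square g hg
  have hD3 := DZ.le (max M₀ B)
  refine ((hD1.or hD2).or hD3).mono ?_
  rintro m ⟨n, hn1, hσ, hcase⟩
  by_cases hmM : m ≤ max M₀ B
  · exact Or.inr hmM
  left
  push Not at hmM
  have hmM0 : M₀ ≤ m := le_trans (le_max_left _ _) hmM.le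
  have hmB : B < m := lt_of_le_of_lt (le_max_right _ _) hmM
  have hm1 : 1 ≤ m := by omega
  have hgm : g m ≤ m := by
    have h1 := hM₀ m hmM0
    rw [Real.norm_eq_abs, Real.norm_eq_abs, abs_of_nonneg (Real.sqrt_nonneg _), one_mul] at h1
    have h2 : Real.sqrt m ≤ m := by
      rw [Real.sqrt_le_left (by positivity)]
      have : (1 : ℝ) ≤ m := by exact_mod_cast hm1
      nlinarith
    exact (le_abs_self _).trans (h1.trans h2)
  have hn2 : n ≤ m * m + m := by
    rcases hcase with h | ⟨_, h⟩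
    · omega
    · have h3 : (n : ℝ) ≤ (m : ℝ) * m + m := by
        have : (1 : ℝ) ≤ m := by exact_mod_cast hm1
        nlinarith
      exact_mod_cast h3
  rw [maxBound_eq hm1 hn1 hn2] at hσ
  obtain ⟨δ, hδ⟩ : ∃ δ, n + m = m * m + 1 + δ := Nat.exists_eq_add_of_le hn1
  have hmm : m ≤ m * m := Nat.le_mul_self m
  have hnδ : n = modN δ m := by
    unfold modN
    omega
  subst hnδ
  obtain ⟨A, hA, hAm⟩ := exists_of_sidonNumber hσ
  rcases hcase with h | ⟨heven, h⟩
  · left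
    refine ⟨δ, mem_range.2 (by omega), A, hA, hAm⟩
  · right
    obtain ⟨s, hs⟩ := even_square heven hA
    rw [hAm, card_missing_eq hA hAm] at hs
    refine ⟨s, ?_⟩
    have h4 : |(s : ℝ) ^ 2 - ((m : ℝ) - 1)| ≤ (δ : ℝ) := by exact_mod_cast hs
    refine h4.trans ?_
    have h5 : ((modN δ m : ℕ) : ℝ) = (m : ℝ) * m - m + δ + 1 := cast_modN δ m
    rw [h5] at h
    nlinarith

end Pool.Agent.Results.MP_28ad2c_co.NearLowerEnd
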